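import Mathlib
import Pool.Prelude.Def_F_c31e40fa
import Pool.Agent.R449.MB.Mlc
import Pool.Agent.R240.Res3

set_option autoImplicit false

/-!
# Local connectivity of the Multibrot sets is decided at isolated, nonresonant, slim parameters

Let `d ≥ 2` and let `M` be the Multibrot set of degree `d`. Local connectivity of `M`, also at one
given point, is decided at the good parameters: those which are, at the same time and for every period
of renormalization,

* isolated: few superattracting parameters in small discs, and bounded averages of negative powers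
  of the distances to the superattracting parameters;
* nonresonant: the superattracting parameters of period dividing `n` are not too close, and all
  holomorphic perturbations move the `n`-th point of the critical orbit slowly compared with its size;
* slim: the harmonic measure and Green's function of small discs and the derivatives with respect to
  the parameter are small.

Proof: around every point of the plane almost every circle meets the boundary of `M` in good
parameters only (`ae_good`), and a failure of local connectivity spreads to almost all small circles.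
-/

open Filter Topology Set Metric MeasureTheory Complex N62a1eb23

namespace Pool.Agent.Results.MP_fcb70f_an.IsolatedParameters

open Pool.Agent.H713R2

/-- The map `z ↦ z ^ d + c`. -/
def f (d : ℕ) (c : ℂ) : ℂ → ℂ := fun z => z ^ d + c

/-- The point `f_c^n (0)` of the critical orbit. -/
def P (d n : ℕ) (c : ℂ) : ℂ := (f d c)^[n] 0

/-- The superattracting parameters of period dividing `n`. -/
def centres (d n : ℕ) : Set ℂ := {a | P d n a = 0}

/-- The perturbation `(id + t Φ) ∘ f_c` of `f_c`. For `Φ = 1` it is `f_(c + t)`. -/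
def g (d : ℕ) (c : ℂ) (Φ : ℂ → ℂ) (t : ℂ) : ℂ → ℂ := fun z => f d c z + t * Φ (f d c z)

/-- `h` is proper of degree at most `d` from the bounded open set `U` onto a set which contains the
closure of `U`. Polynomial-like maps of degree `d` have this property. -/
def PolynomialLike (d : ℕ) (h : ℂ → ℂ) (U : Set ℂ) : Prop :=
  IsOpen U ∧ Bornology.IsBounded U ∧ closure U ⊆ h '' U ∧
    (∀ K ⊆ h '' U, IsCompact K → IsCompact {z | z ∈ U ∧ h z ∈ K}) ∧
    ∀ w ∈ h '' U, {z | z ∈ U ∧ h z = w}.encard ≤ d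

/-- `z ↦ z ^ d + c` is renormalizable of period `p`. -/
def Renormalizable (d : ℕ) (c : ℂ) (p : ℕ) : Prop :=
  ∃ U : Set ℂ, PolynomialLike d ((f d c)^[p]) U ∧ (0 : ℂ) ∈ U ∧
    (∀ n : ℕ, 1 ≤ n → (f d c)^[n * p] 0 ∈ U) ∧ ∀ z ∈ U, deriv ((f d c)^[p]) z = 0 → z = 0

/-- Isolated parameters. For `q = 1` and for every period `q` of renormalization, for every
`κ < q`: all small discs of radius `r` about `c` contain at most `d ^ n * r ^ κ` superattracting
parameters of period dividing `n`, for all `n` at the same time, and the sum of `|a - c| ^ (-κ)` over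
the superattracting parameters `a` of period dividing `n` is at most a constant times `d ^ n`. -/
def Isolated (d : ℕ) (c : ℂ) : Prop :=
  ∀ q : ℕ, 1 ≤ q → (q = 1 ∨ Renormalizable d c q) → ∀ κ : ℝ, 0 < κ → κ < q →
    (∀ᶠ r : ℝ in 𝓝[>] 0, ∀ n : ℕ, 1 ≤ n →
      ((centres d n ∩ ball c r).ncard : ℝ) ≤ (d : ℝ) ^ n * r ^ κ) ∧
    ∃ C : ℝ, ∀ n : ℕ, 1 ≤ n → c ∉ centres d n ∧
      ∑ᶠ a ∈ centres d n, dist a c ^ (-κ) ≤ C * (d : ℝ) ^ n

/-- Nonresonant parameters. For `q = 1` and for every period `q` of renormalization, for every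
`X > log d / q` and all large `n`, all superattracting parameters of period dividing `n` are at
distance more than `exp (- X n)`, and every holomorphic perturbation of the map moves the `n`-th
point of the critical orbit with a speed which is at most `exp (X n)` times its size (up to a
logarithm and a constant). -/
def Nonresonant (d : ℕ) (K : ℝ) (c : ℂ) : Prop :=
  ∀ q : ℕ, 1 ≤ q → (q = 1 ∨ Renormalizable d c q) → ∀ X : ℝ, Real.log d / q < X →
    ∀ᶠ n : ℕ in atTop, (∀ a ∈ centres d n, Real.exp (-(X * n)) < dist a c) ∧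
      ∀ (Φ : ℂ → ℂ) (M : ℝ), DifferentiableOn ℂ Φ (ball 0 4) →
        (∀ x ∈ ball (0 : ℂ) 4, ‖Φ x‖ ≤ M) →
        DifferentiableAt ℂ (fun t : ℂ => (g d c Φ t)^[n] 0) 0 ∧
        ‖deriv (fun t : ℂ => (g d c Φ t)^[n] 0) 0‖ ≤
          K * M * Real.exp (X * n) * (‖P d n c‖ * (1 + |Real.log ‖P d n c‖|))

/-- The angles `t ∈ (0, 2π]` of the external rays landing at distance less than `r` from `c₀`. -/
def angles (ψ : ℂ → ℂ) (c₀ : ℂ) (r : ℝ) : Set ℝ :=
  {t | t ∈ Ioc 0 (2 * Real.pi) ∧ ∃ ζ ∈ ball c₀ r,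
    Tendsto (fun ρ : ℝ => ψ (ρ * exp (t * I))) (𝓝[>] 1) (𝓝 ζ)}

/-- The harmonic measure (from infinity) of the disc of radius `r`, up to the factor `2π`. -/
noncomputable def harm (ψ : ℂ → ℂ) (c₀ : ℂ) (r : ℝ) : ℝ := (volume (angles ψ c₀ r)).toReal

/-- The maximum over a disc of Green's function of the complement of the Multibrot set: Green's
function is `log ‖w‖` at the point `ψ w`. -/
noncomputable def green (ψ : ℂ → ℂ) (c₀ : ℂ) (r : ℝ) : ℝ :=
  sSup {x | ∃ w : ℂ, 1 < ‖w‖ ∧ ‖ψ w - c₀‖ ≤ r ∧ Real.log ‖w‖ = x}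

/-- Slim parameters. For `q = 1` and for every period `q` of renormalization: the harmonic measure
and Green's function of the disc of radius `r` about `c` are less than `r ^ κ` for small `r`, for
every `κ < q`, and the exponential rate of growth of the derivatives with respect to the parameter is
at most `log d / q`. -/
def Slim (d : ℕ) (ψ : ℂ → ℂ) (c : ℂ) : Prop :=
  ∀ q : ℕ, 1 ≤ q → (q = 1 ∨ Renormalizable d c q) →
    (∀ κ : ℝ, 0 < κ → κ < q → ∀ᶠ r : ℝ in 𝓝[>] 0, harm ψ c r < r ^ κ ∧ green ψ c r < r ^ κ) ∧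
    ∀ a : ℝ, Real.log d / q < a → ∀ᶠ n : ℕ in atTop, ‖deriv (P d n) c‖ < Real.exp (a * n)

/-- Isolated, nonresonant and slim. -/
def Good (d : ℕ) (K : ℝ) (ψ : ℂ → ℂ) (c : ℂ) : Prop :=
  Isolated d c ∧ Nonresonant d K c ∧ Slim d ψ c

/-- `K` is locally connected at `c` in the weak sense (connected im kleinen): the points of `K`
close to `c` are joined to `c` by small connected subsets of `K`. -/
def LocallyConnectedAt (K : Set ℂ) (c : ℂ) : Prop :=
  ∀ ε : ℝ, 0 < ε → ∃ δ : ℝ, 0 < δ ∧ ∀ q ∈ K, dist q c < δ →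
    ∃ C ⊆ K ∩ ball c ε, IsPreconnected C ∧ c ∈ C ∧ q ∈ C

theorem centres_eq {d : ℕ} (hd : 2 ≤ d) (N : ℕ) :
    centres d (N + 1) = ((Pool.Agent.R240.LL.ZZ d N : Finset ℂ) : Set ℂ) := by
  ext a
  rw [Finset.mem_coe, Pool.Agent.R240.LL.mem_ZZ hd]
  rfl

theorem inter_eq (d n : ℕ) (c : ℂ) (r : ℝ) :
    centres d n ∩ ball c r = Pool.Agent.R240.Sparse.cen d n c r := by
  ext a
  exact and_comm

theorem isolated {d : ℕ} (hd : 2 ≤ d) {c : ℂ} (h : Pool.Agent.R449.MB.Nice d c) :
    Isolated d c := by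
  intro q hq hr κ hκ0 hκ
  obtain ⟨h1, h2, C, hC⟩ := h q hq hr κ hκ0 hκ
  refine ⟨?_, C, ?_⟩
  · filter_upwards [h1] with r h3 n hn
    rw [inter_eq]
    exact h3 n hn
  · intro n hn
    obtain ⟨N, rfl⟩ : ∃ N, n = N + 1 := ⟨n - 1, by omega⟩
    refine ⟨h2 (N + 1) hn, ?_⟩
    rw [centres_eq hd, finsum_mem_coe_finset]
    simpa only [dist_eq_norm] using hC N

theorem nonres {d : ℕ} (hd : 2 ≤ d) {c : ℂ} (hc : c ∈ multibrotSet d)
    (h : Pool.Agent.R240.Res.Nonres d c) : Nonresonant d Pool.Agent.R240.Res.KR c := by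
  intro q hq hr X hX
  have h1 := h q hq hr X hX
  filter_upwards [h1] with n hn
  refine ⟨fun a ha => ?_, fun Φ M hΦ hM => ?_⟩
  · rw [dist_eq_norm]
    exact hn.1 a ha
  · have h2 : HasDerivAt (fun t : ℂ => (g d c Φ t)^[n] 0) (Pool.Agent.R240.Univ.vel d c Φ n) 0 :=
      Pool.Agent.R240.Univ.vel_deriv hd hc hΦ n
    refine ⟨h2.differentiableAt, ?_⟩
    rw [h2.deriv]
    exact hn.2 Φ M hΦ hM

theorem slim {d : ℕ} {ψ : ℂ → ℂ} (hd : 2 ≤ d) {c : ℂ} (hc : c ∈ multibrotSet d)
    (h : Pool.Agent.R240.Slim.SlimAt d ψ c) : Slim d ψ c := by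
  intro q hq hr
  apply h q hq
  rcases hr with rfl | hr
  · exact Pool.Agent.Y736.RN.ren_one hd hc
  · obtain ⟨U, h1, h2, h3, _⟩ := hr
    exact ⟨U, h1, h2, h3⟩

/-- almost every circle meets the boundary in good parameters only -/
theorem ae_good {d : ℕ} {ψ : ℂ → ℂ} (hd : 2 ≤ d) (hψ : IsExteriorMap (multibrotSet d) ψ) (p : ℂ) :
    ∀ᵐ s : ℝ, ∀ c ∈ frontier (multibrotSet d), dist c p = s →
      Good d Pool.Agent.R240.Res.KR ψ c := by
  filter_upwards [Pool.Agent.R449.MB.ae_nice hd p, Pool.Agent.R240.Res.ae_nonres hd p,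
    Pool.Agent.R240.Slim.ae_slim hd hψ p] with s h1 h2 h3 c hc hcs
  have hcM : c ∈ multibrotSet d :=
    (Pool.Agent.H712R2.isCompact_multibrot hd).isClosed.frontier_subset hc
  exact ⟨isolated hd (h1 c hc hcs), nonres hd hcM (h2 c hc hcs), slim hd hcM (h3 c hcM hcs)⟩

theorem spread_good {d : ℕ} {ψ : ℂ → ℂ} (hd : 2 ≤ d) (hψ : IsExteriorMap (multibrotSet d) ψ)
    {p : ℂ} (h : ¬ LocallyConnectedAt (multibrotSet d) p) :
    ∃ ε : ℝ, 0 < ε ∧ ∀ᵐ s : ℝ, 0 < s → s < ε →
      ∃ c ∈ frontier (multibrotSet d), dist c p = s ∧ Good d Pool.Agent.R240.Res.KR ψ c ∧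
        ¬ LocallyConnectedAt (multibrotSet d) c := by
  obtain ⟨ε, hε, hs⟩ := Pool.Agent.R240.Loc.spread (Pool.Agent.H712R2.isCompact_multibrot hd)
    (Pool.Agent.H712R2.isConnected_multibrot hd).isPreconnected h
  refine ⟨ε, hε, ?_⟩
  filter_upwards [ae_good hd hψ p] with s h1 hs0 hsε
  obtain ⟨z, hz, hzs, hzc⟩ := hs s hs0 hsε
  have hzf : z ∈ frontier (multibrotSet d) :=
    ⟨subset_closure hz, fun hi => hzc (Pool.Agent.R240.Slim.cik_interior hi)⟩
  exact ⟨z, hzf, hzs, h1 z hzf hzs, hzc⟩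

theorem local_good {d : ℕ} {ψ : ℂ → ℂ} (hd : 2 ≤ d) (hψ : IsExteriorMap (multibrotSet d) ψ)
    {p : ℂ} {ε : ℝ} (hε : 0 < ε)
    (h : ∀ c ∈ frontier (multibrotSet d), c ≠ p → dist c p < ε →
      Good d Pool.Agent.R240.Res.KR ψ c → LocallyConnectedAt (multibrotSet d) c) :
    LocallyConnectedAt (multibrotSet d) p := by
  by_contra hcon
  obtain ⟨ε', hε', h1⟩ := spread_good hd hψ hcon
  have h3 : ∃ s : ℝ, s ∈ Ioo 0 (min ε ε') ∧ (0 < s → s < ε' →
      ∃ c ∈ frontier (multibrotSet d), dist c p = s ∧ Good d Pool.Agent.R240.Res.KR ψ c ∧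
        ¬ LocallyConnectedAt (multibrotSet d) c) := by
    by_contra h4
    push Not at h4
    have h5 : volume (Ioo 0 (min ε ε')) = 0 := by
      apply measure_mono_null _ h1
      intro s hs hcon
      obtain ⟨h6, h7, h8⟩ := h4 s hs
      obtain ⟨c, hc1, hc2, hc3, hc4⟩ := hcon h6 h7
      exact hc4 (h8 c hc1 hc2 hc3)
    rw [Real.volume_Ioo, ENNReal.ofReal_eq_zero] at h5
    have := lt_min hε hε'
    linarith
  obtain ⟨s, hs, h4⟩ := h3
  obtain ⟨c, hc1, hcs, hc3, hc4⟩ := h4 hs.1 (hs.2.trans_le (min_le_right _ _))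
  refine hc4 (h c hc1 ?_ ?_ hc3)
  · rintro rfl
    rw [dist_self] at hcs
    linarith [hs.1]
  · rw [hcs]
    exact hs.2.trans_le (min_le_left _ _)

/-- **Local connectivity of the Multibrot sets is decided at the good parameters.** For every degree
`d ≥ 2`, with a constant `K`:

(1) the Multibrot set is locally connected if it is locally connected at its good (isolated,
nonresonant and slim) boundary parameters;

(2) it is locally connected at a given point if it is locally connected at the good boundary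
parameters near this point, the point itself excluded;

(3) a point at which it is not locally connected is surrounded by good parameters of the same kind,
on almost every small circle. -/
theorem result (d : ℕ) (hd : 2 ≤ d) :
    (∃ ψ : ℂ → ℂ, IsExteriorMap (multibrotSet d) ψ) ∧
    (∀ n : ℕ, 1 ≤ n → (centres d n).Finite) ∧
    ∃ K : ℝ, 0 < K ∧ ∀ ψ : ℂ → ℂ, IsExteriorMap (multibrotSet d) ψ →
      (LocallyConnectedSpace (multibrotSet d) ↔
        ∀ c ∈ frontier (multibrotSet d), Good d K ψ c → LocallyConnectedAt (multibrotSet d) c) ∧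
      (∀ (p : ℂ) (ε : ℝ), 0 < ε →
        (∀ c ∈ frontier (multibrotSet d), c ≠ p → dist c p < ε → Good d K ψ c →
          LocallyConnectedAt (multibrotSet d) c) → LocallyConnectedAt (multibrotSet d) p) ∧
      ∀ p : ℂ, ¬ LocallyConnectedAt (multibrotSet d) p →
        ∃ ε : ℝ, 0 < ε ∧ ∀ᵐ s : ℝ, 0 < s → s < ε →
          ∃ c ∈ frontier (multibrotSet d), dist c p = s ∧ Good d K ψ c ∧
            ¬ LocallyConnectedAt (multibrotSet d) c := by
  obtain ⟨β, hβ⟩ := exists_beta (d := d) hd
  refine ⟨⟨_, exteriorMap_of_beta hβ⟩, ?_, Pool.Agent.R240.Res.KR, Pool.Agent.R240.Res.KR_pos, ?_⟩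
  · intro n hn
    obtain ⟨N, rfl⟩ : ∃ N, n = N + 1 := ⟨n - 1, by omega⟩
    rw [centres_eq hd]
    exact (Pool.Agent.R240.LL.ZZ d N).finite_toSet
  · intro ψ hψ
    refine ⟨⟨fun h c hc _ => ?_, fun h => ?_⟩, fun p ε hε h => local_good hd hψ hε h,
      fun p hp => spread_good hd hψ hp⟩
    · exact Pool.Agent.R240.Loc.lcs_iff.1 h c
        ((Pool.Agent.H712R2.isCompact_multibrot hd).isClosed.frontier_subset hc)
    · refine Pool.Agent.R240.Loc.lcs_iff.2 fun p _ => ?_
      exact local_good hd hψ one_pos fun c hc _ _ hg => h c hc hg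

end Pool.Agent.Results.MP_fcb70f_an.IsolatedParameters
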