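import Mathlib
import Pool.Prelude.Def_F_c31e40fa
import Pool.Agent.Y736.HG9

set_option autoImplicit false

/-!
# The Multibrot sets at the parameters with a Lyapunov exponent

At every parameter of the Multibrot set `M_d`, `d ≥ 2`, at which the Lyapunov exponent of the critical
value exists and is a positive number `χ`, the harmonic measure and the maximum of Green's function on
the discs of radius `r` decay like `r ^ (log d / χ)`; if the exterior map extends continuously to the
unit circle (local connectivity), its modulus of continuity at the corresponding points of the circle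
is not better than `δ ^ (χ / log d)`.

The theorems are proved in the starting files `Pool/Agent/Y736/HG9.lean` (and the files imported by
it); no starting result states them.
-/

open Filter Topology Set Metric MeasureTheory Complex N62a1eb23

namespace Pool.Agent.Results.MP_fcb70f_an.LyapunovParameters

open Pool.Agent.H713R2

/-- The angles `t ∈ (0, 2π]` of the external rays landing at distance less than `r` from `c₀`. Up to
the factor `2π` its length is the harmonic measure (from infinity) of the disc of radius `r`. -/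
def angles (ψ : ℂ → ℂ) (c₀ : ℂ) (r : ℝ) : Set ℝ :=
  {t | t ∈ Ioc 0 (2 * Real.pi) ∧ ∃ ζ ∈ ball c₀ r,
    Tendsto (fun ρ : ℝ => ψ (ρ * exp (t * I))) (𝓝[>] 1) (𝓝 ζ)}

/-- The harmonic measure of the disc of radius `r`, up to the factor `2π`. -/
noncomputable def harm (ψ : ℂ → ℂ) (c₀ : ℂ) (r : ℝ) : ℝ := (volume (angles ψ c₀ r)).toReal

/-- The maximum of Green's function of the Multibrot set over a disc: Green's function is
`log ‖w‖` at the point `ψ w`. -/
noncomputable def green (ψ : ℂ → ℂ) (c₀ : ℂ) (r : ℝ) : ℝ :=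
  sSup {x | ∃ w : ℂ, 1 < ‖w‖ ∧ ‖ψ w - c₀‖ ≤ r ∧ Real.log ‖w‖ = x}

/-- `c₀` is a parameter of the Multibrot set of degree `d` with the Lyapunov exponent `χ > 0`: the
numbers `(1/n) log |(f^n)'(c₀)|`, `f z = z ^ d + c₀`, tend to `χ`. -/
def HasExponent (d : ℕ) (χ : ℝ) (c₀ : ℂ) : Prop :=
  0 < χ ∧ c₀ ∈ multibrotSet d ∧
    Tendsto (fun n : ℕ => Real.log ‖deriv ((fun z : ℂ => z ^ d + c₀)^[n]) c₀‖ / n) atTop (𝓝 χ)

/-- Let `d ≥ 2`, let `ψ` be the exterior map of the Multibrot set `M_d` (it exists) and let `c₀` be a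
parameter of `M_d` with the Lyapunov exponent `χ > 0`. The local dimension of the harmonic measure at
`c₀` exists and is `log d / χ`, and the maximum of Green's function over the disc of radius `r` about
`c₀` has the same exponent. If `ψ` has a continuous extension `F` to the circle (if `M_d` is locally
connected) and `F ζ = c₀`, then for every `ε > 0` the image under `F` of every arc of small radius `δ`
about `ζ` contains a point at distance at least `δ ^ (χ / log d + ε)` from `c₀`. -/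
theorem result (d : ℕ) (hd : 2 ≤ d) :
    (∃ ψ : ℂ → ℂ, IsExteriorMap (multibrotSet d) ψ) ∧
    ∀ ψ : ℂ → ℂ, IsExteriorMap (multibrotSet d) ψ → ∀ (χ : ℝ) (c₀ : ℂ), HasExponent d χ c₀ →
      Tendsto (fun r => Real.log (harm ψ c₀ r) / Real.log r) (𝓝[>] 0) (𝓝 (Real.log d / χ)) ∧
      Tendsto (fun r => Real.log (green ψ c₀ r) / Real.log r) (𝓝[>] 0) (𝓝 (Real.log d / χ)) ∧
      ∀ F : ℂ → ℂ, ContinuousOn F {w : ℂ | 1 ≤ ‖w‖} → (∀ w : ℂ, 1 < ‖w‖ → F w = ψ w) →
        ∀ ζ : ℂ, ‖ζ‖ = 1 → F ζ = c₀ → ∀ ε : ℝ, 0 < ε → ∀ᶠ δ : ℝ in 𝓝[>] 0,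
          ∃ ξ : ℂ, ‖ξ‖ = 1 ∧ ‖ξ - ζ‖ ≤ δ ∧ δ ^ (χ / Real.log d + ε) ≤ ‖F ξ - F ζ‖ := by
  obtain ⟨β, hβ⟩ := exists_beta (d := d) hd
  refine ⟨⟨_, exteriorMap_of_beta hβ⟩, ?_⟩
  intro ψ hψ χ c₀ h
  have h' : Pool.Agent.Y298.CA.Lyap d χ c₀ := h
  refine ⟨Pool.Agent.Y736.HG.vol_exp hd h' hψ, Pool.Agent.Y736.HG.sup_exp hd h' hψ, ?_⟩
  intro F hF hE ζ hζ hFζ ε hε
  exact Pool.Agent.Y736.HG.loop hd h' hψ hF hE hζ hFζ hε

end Pool.Agent.Results.MP_fcb70f_an.LyapunovParameters
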