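import Mathlib
import Pool.Prelude.Def_F_c31e40fa
import Pool.Agent.N772.PC.Near
import Pool.Agent.N772.PC.Bas
import Pool.Agent.N772.TC.Area
import Pool.Agent.R240.Res3
import Pool.Agent.R240.Loc

/-!
# Most small copies of the Multibrot sets are asymptotically perfect

Let `M` be the Multibrot set of degree `d ≥ 2` (the parameters `c` for which the orbit of `0` under
`f_c = z ^ d + c` is bounded). Every superattracting parameter `c` of exact period `n` is the centre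
of a small copy of `M`; there are about `d ^ (n - 1)` of them.

**Theorem.** There are scales `l` and `m` (explicit in terms of the derivatives of `f ^ n (0)`) such
that the renormalised family `z ↦ f_(c + l κ) ^ n (m z) / m` is exponentially close to the family
`z ^ d + κ`, for all `κ` and `z` in exponentially large discs; the component of `c` of the interior of
`M` is exponentially close to `c + l {w - w ^ d : d |w| ^ (d - 1) < 1}`, the main component of `M`,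
with the same multipliers; and the small copy of `M`, magnified by `1 / l`, is `ε`-close to `M` from
outside and `ε`-close to the hyperbolic part of `M` and to the whole boundary of `M` from inside,
and is isolated in a disc of exponentially large radius. This holds

* if `c` is close to a parameter with a positive Lyapunov exponent `χ`, and
* for most superattracting parameters of exact period `n` (with `χ = log d`): their proportion
  converges to one.

Outside of these discs is where the open problem lives: local connectivity of `M` has to be checked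
only at the boundary parameters which lie in finitely many of the discs of radius
`exp (- (log d + ε) n)` about superattracting parameters.
-/

set_option autoImplicit false

open MeasureTheory Filter Metric Topology Set

namespace Pool.Agent.Results.MP_fcb70f_an.PerfectCopies

open N62a1eb23

/-- The polynomial `z ^ d + c`. -/
def f (d : ℕ) (c : ℂ) : ℂ → ℂ := fun z => z ^ d + c

/-- The superattracting parameters of exact period `n`: the critical point `0` of `z ^ d + c` is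
periodic with least period `n`. -/
def centres (d n : ℕ) : Set ℂ := {c | Function.minimalPeriod (f d c) 0 = n}

/-- The critical orbit as a function of the parameter. -/
def crit (d n : ℕ) (c : ℂ) : ℂ := (f d c)^[n] 0

/-- The parameters with attracting cycles. -/
def hyperbolic (d : ℕ) : Set ℂ := {c | ∃ m z, IsAttractingCycle (f d c) m z}

/-- The component of the interior of the Multibrot set which contains `c`. -/
def component (d : ℕ) (c : ℂ) : Set ℂ := connectedComponentIn (interior (multibrotSet d)) c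

/-- The renormalised map: `f ^ n` at the parameter `c + l κ`, in the coordinate `z / m`. -/
noncomputable def ren (d n : ℕ) (c l m κ : ℂ) : ℂ → ℂ :=
  fun z => (f d (c + l * κ))^[n] (m * z) / m

/-- The scales: `l` for the parameters and `m` for the dynamics. They are explicit, and
`|l| = exp (- (χ d / (d - 1) ± ε) n)`, `|m| = exp (- (χ / (d - 1) ± ε) n)`. -/
def Scales (d n : ℕ) (c l m : ℂ) (χ ε : ℝ) : Prop :=
  l ≠ 0 ∧ m ≠ 0 ∧ m ^ (d - 1) * deriv ((f d c)^[n - 1]) c = 1 ∧ l * deriv (crit d n) c = m ∧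
    |-Real.log ‖l‖ / n - χ * d / (d - 1)| ≤ ε ∧ |-Real.log ‖m‖ / n - χ / (d - 1)| ≤ ε

/-- The renormalised family is close to the family `z ^ d + κ`. -/
def Universal (d n : ℕ) (c l m : ℂ) (τ : ℝ) : Prop :=
  ∀ R : ℝ, 1 ≤ R → R ≤ Real.exp τ → ∀ κ z : ℂ, ‖κ‖ ≤ R → ‖z‖ ^ d ≤ R →
    ‖ren d n c l m κ z - (z ^ d + κ)‖ ≤ R ^ 2 * Real.exp (-τ) ∧
    ‖deriv (ren d n c l m κ) z - d * z ^ (d - 1)‖ ≤ R ^ 2 * Real.exp (-τ)

/-- The component of `c` is close to the copy of the main component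
`{w - w ^ d : d |w| ^ (d - 1) < 1}`, in which `w` is the attracting fixed point, and the attracting
periodic points and their multipliers are close to `w` and to `d w ^ (d - 1)`. -/
def Shape (d n : ℕ) (c l m : ℂ) (τ : ℝ) : Prop :=
  (∀ w : ℂ, d * ‖w‖ ^ (d - 1) ≤ 1 - Real.exp (-(τ / 2)) → c + l * (w - w ^ d) ∈ component d c ∧
    ∃ z : ℂ, ‖z - w‖ ≤ Real.exp (-(τ / 2)) ∧ (f d (c + l * (w - w ^ d)))^[n] (m * z) = m * z ∧
      ‖deriv ((f d (c + l * (w - w ^ d)))^[n]) (m * z)‖ < 1 ∧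
      ‖deriv ((f d (c + l * (w - w ^ d)))^[n]) (m * z) - d * w ^ (d - 1)‖ ≤ Real.exp (-(τ / 2))) ∧
  ∀ b ∈ component d c, ∃ w : ℂ, d * ‖w‖ ^ (d - 1) < 1 ∧
    ‖b - (c + l * (w - w ^ d))‖ ≤ ‖l‖ * Real.exp (-τ)

/-- The small copy of the Multibrot set, magnified by `1 / l`: the parameters `κ` for which the
orbit of `0` under `f_(c + l κ) ^ n` stays in the disc of radius `ρ |m|`. -/
def copy (d n : ℕ) (c l m : ℂ) (ρ : ℝ) : Set ℂ :=
  {κ | ‖κ‖ ≤ ρ ^ d ∧ ∀ j : ℕ, ‖(f d (c + l * κ))^[n * j] 0‖ ≤ ρ * ‖m‖}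

/-- The small copy is close to the Multibrot set, and isolated. -/
def Copies (d n : ℕ) (c l m : ℂ) (τ ε : ℝ) : Prop :=
  (∀ ρ : ℝ, 3 ≤ ρ → ρ ^ (2 * d) ≤ Real.exp τ → copy d n c l m ρ = copy d n c l m 3) ∧
  copy d n c l m 3 ⊆ thickening ε (multibrotSet d) ∧
  closure (hyperbolic d) ⊆
    thickening ε {κ | κ ∈ copy d n c l m 3 ∧ c + l * κ ∈ hyperbolic d} ∧
  ∀ κ : ℂ, ball κ ε ⊆ hyperbolic d → κ ∈ copy d n c l m 3 ∧ c + l * κ ∈ hyperbolic d

/-- `h` is a proper map of degree at most `d` of `U` onto the larger set `V`, with the only critical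
point `0`. -/
def PolynomialLike (d : ℕ) (h : ℂ → ℂ) (U V : Set ℂ) : Prop :=
  IsOpen U ∧ Bornology.IsBounded U ∧ closure U ⊆ V ∧ h '' U = V ∧
    (∀ K ⊆ V, IsCompact K → IsCompact {z | z ∈ U ∧ h z ∈ K}) ∧
    (∀ w ∈ V, {z | z ∈ U ∧ h z = w}.encard ≤ d) ∧ ∀ z ∈ U, deriv h z = 0 → z = 0

/-- The maps `f_(c + l κ) ^ n` are polynomial-like, of a neighbourhood of `0` in the disc of radius
`(2 ρ) ^ (1 / d) |m|` onto the disc of radius `ρ |m|`. -/
def Renormalizable (d n : ℕ) (c l m : ℂ) (τ : ℝ) : Prop :=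
  ∀ ρ : ℝ, 4 ≤ ρ → ρ ^ (2 * d) ≤ Real.exp τ → ∀ κ : ℂ, ‖κ‖ ≤ ρ - 1 →
    ∃ U : Set ℂ, (0 : ℂ) ∈ U ∧ (∀ z ∈ U, ‖z‖ ^ d ≤ 2 * ρ * ‖m‖ ^ d) ∧
      PolynomialLike d ((f d (c + l * κ))^[n]) U (ball 0 (ρ * ‖m‖))

/-- The component, containing `0`, of the basin of the superattracting point `0` of `f_c ^ n`. -/
def basin (d n : ℕ) (c : ℂ) : Set ℂ :=
  connectedComponentIn {z | Tendsto (fun j : ℕ => (f d c)^[n * j] z) atTop (𝓝 0)} 0

/-- This component is close to a round disc. -/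
def Round (d n : ℕ) (c m : ℂ) (τ : ℝ) : Prop :=
  ball 0 ((1 - Real.exp (-τ)) * ‖m‖) ⊆ basin d n c ∧
    basin d n c ⊆ ball 0 ((1 + Real.exp (-τ)) * ‖m‖)

/-- The small copy of centre `c` is perfect, up to `ε`. -/
def Perfect (d : ℕ) (χ ε : ℝ) (n : ℕ) (c : ℂ) : Prop :=
  ∃ l m : ℂ, Scales d n c l m χ ε ∧ Universal d n c l m ((χ / (d - 1) - ε) * n) ∧
    Shape d n c l m ((χ / (d - 1) - ε) * n) ∧ Copies d n c l m ((χ / (d - 1) - ε) * n) ε ∧
    Renormalizable d n c l m ((χ / (d - 1) - ε) * n) ∧ Round d n c m ((χ / (d - 1) - ε) * n)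

/-- `K` is locally connected at `c` in the weak sense (connected im kleinen): the points of `K`
close to `c` are joined to `c` by small connected subsets of `K`. -/
def LocallyConnectedAt (K : Set ℂ) (c : ℂ) : Prop :=
  ∀ ε : ℝ, 0 < ε → ∃ δ : ℝ, 0 < δ ∧ ∀ q ∈ K, dist q c < δ →
    ∃ C ⊆ K ∩ ball c ε, IsPreconnected C ∧ c ∈ C ∧ q ∈ C

open Pool.Agent.N772.TC Pool.Agent.N772.PC

theorem log_near' {x χ ε n : ℝ} (hn : 0 < n) (h1 : Real.exp (-((χ + ε) * n)) ≤ x)
    (h2 : x ≤ Real.exp (-((χ - ε) * n))) : |-Real.log x / n - χ| ≤ ε := by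
  have hx : 0 < x := (Real.exp_pos _).trans_le h1
  have h3 := (Real.le_log_iff_exp_le hx).2 h1
  have h4 := (Real.log_le_iff_le_exp hx).2 h2
  rw [abs_le]
  constructor
  · have : χ - ε ≤ -Real.log x / n := by
      rw [le_div_iff₀ hn]
      linarith
    linarith
  · have : -Real.log x / n ≤ χ + ε := by
      rw [div_le_iff₀ hn]
      linarith
    linarith

theorem deriv_ren {d n : ℕ} {c l m κ z : ℂ} (hm : m ≠ 0) :
    deriv (ren d n c l m κ) z = deriv ((f d (c + l * κ))^[n]) (m * z) := by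
  have := re_deriv (d := d) (n := n) (c := c) (l := l) (κ := κ) hm 1 z
  rw [Function.iterate_one, mul_one] at this
  exact this

/-- the consequences of universality -/
theorem consequences {d : ℕ} (hd : 2 ≤ d) {χ ε ε₁ : ℝ} (hχ : 0 < χ) (hε : 0 < ε) (hε₁ : ε₁ < ε)
    (hε₁' : ε₁ < χ / (d - 1)) : ∀ᶠ n : ℕ in atTop, ∀ c l m : ℂ, l ≠ 0 → m ≠ 0 →
      Pool.Agent.H712R2.P d n c = 0 → Un d n c l m ((χ / (d - 1) - ε₁) * n) →
        Universal d n c l m ((χ / (d - 1) - ε) * n) ∧ Shape d n c l m ((χ / (d - 1) - ε) * n) ∧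
          Copies d n c l m ((χ / (d - 1) - ε) * n) ε ∧
          Renormalizable d n c l m ((χ / (d - 1) - ε) * n) ∧
          Round d n c m ((χ / (d - 1) - ε) * n) := by
  have hdR : (2 : ℝ) ≤ d := by exact_mod_cast hd
  obtain ⟨η₁, hη₁, H₁⟩ := hyp_uniform hd hε
  obtain ⟨η₂, hη₂, H₂⟩ := esc_uniform (d := d) hε
  obtain ⟨η₃, hη₃, H₃⟩ := clo_uniform hd hε
  obtain ⟨η, hη⟩ : ∃ η, η = min (min η₁ η₂) (min η₃ (1 / 4)) := ⟨_, rfl⟩
  have hη0 : 0 < η := by rw [hη]; positivity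
  have l1 : η ≤ η₁ := by rw [hη]; exact (min_le_left _ _).trans (min_le_left _ _)
  have l2 : η ≤ η₂ := by rw [hη]; exact (min_le_left _ _).trans (min_le_right _ _)
  have l3 : η ≤ η₃ := by rw [hη]; exact (min_le_right _ _).trans (min_le_left _ _)
  have l4 : η ≤ 1 / 4 := by rw [hη]; exact (min_le_right _ _).trans (min_le_right _ _)
  have hgap : 0 < ε - ε₁ := by linarith
  have hpos : 0 < χ / (d - 1) - ε₁ := by linarith
  obtain ⟨A, hA⟩ : ∃ A : ℝ, A = 9 ^ d * (d ^ 2 * 2 ^ (d + 2) * 2 + (3 + 2 * d)) := ⟨_, rfl⟩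
  have hA0 : 0 < A := by rw [hA]; positivity
  filter_upwards [Pool.Agent.N253.MS.ev_lin hpos (Real.log (9 ^ d / η)),
    Pool.Agent.N253.MS.ev_lin hgap (Real.log A), Pool.Agent.N253.MS.ev_lin hgap (-Real.log η),
    eventually_ge_atTop 1] with n hn1 hn2 hn3 hn c l m hl hm hP hU
  have hn0 : (0 : ℝ) < n := by exact_mod_cast hn
  obtain ⟨τ, hτ⟩ : ∃ τ : ℝ, τ = (χ / (d - 1) - ε) * n := ⟨_, rfl⟩
  obtain ⟨τ₁, hτ₁⟩ : ∃ τ₁ : ℝ, τ₁ = (χ / (d - 1) - ε₁) * n := ⟨_, rfl⟩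
  rw [← hτ]
  rw [← hτ₁] at hU hn1
  have hττ : τ₁ = τ + (ε - ε₁) * n := by rw [hτ, hτ₁]; ring
  have hle : τ ≤ τ₁ := by
    rw [hττ]
    have : 0 < (ε - ε₁) * n := by positivity
    linarith
  -- the errors
  have e1 : (9 : ℝ) ^ d * Real.exp (-τ₁) ≤ η := by
    have h1 : (9 : ℝ) ^ d / η ≤ Real.exp τ₁ := (Real.log_le_iff_le_exp (by positivity)).1 hn1.le
    rw [div_le_iff₀ hη0] at h1
    rw [Real.exp_neg, ← div_eq_mul_inv, div_le_iff₀ (Real.exp_pos _)]
    linarith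
  have e2 : A * Real.exp (-τ₁) ≤ Real.exp (-τ) := by
    have h1 : A ≤ Real.exp ((ε - ε₁) * n) := (Real.log_le_iff_le_exp hA0).1 hn2.le
    calc A * Real.exp (-τ₁) ≤ Real.exp ((ε - ε₁) * n) * Real.exp (-τ₁) := by gcongr
      _ = Real.exp (-τ) := by rw [← Real.exp_add]; congr 1; rw [hττ]; ring
  have e3 : Real.exp τ * Real.exp (-τ₁) ≤ η := by
    rw [← Real.exp_add, ← Real.exp_log hη0]
    apply Real.exp_le_exp.2
    rw [hττ]
    linarith
  have e4 : (9 : ℝ) ^ d * Real.exp (-τ₁) ≤ 1 / 4 := e1.trans l4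
  have hexp : Real.exp (-τ₁) ≤ Real.exp (-τ) := Real.exp_le_exp.2 (by linarith)
  refine ⟨?_, ⟨?_, ?_⟩, ⟨?_, ?_, ?_, ?_⟩, ?_, ?_⟩
  · intro R hR1 hR κ z hκ hz
    obtain ⟨u1, u2⟩ := hU R hR1 (hR.trans (Real.exp_le_exp.2 hle)) κ z hκ hz
    refine ⟨u1.trans (by gcongr), ?_⟩
    rw [deriv_ren hm]
    exact u2.trans (by gcongr)
  · intro w hw
    have hs0 : 0 < Real.exp (-(τ / 2)) := Real.exp_pos _
    have hs1 : Real.exp (-(τ / 2)) ≤ 1 := by
      have : 0 ≤ d * ‖w‖ ^ (d - 1) := by positivity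
      linarith
    have hs2 : (9 : ℝ) ^ d * Real.exp (-τ₁) ≤ Real.exp (-(τ / 2)) *
        (Real.exp (-(τ / 2)) / (d ^ 2 * 2 ^ (d + 2))) / 2 := by
      have h1 : Real.exp (-(τ / 2)) * Real.exp (-(τ / 2)) = Real.exp (-τ) := by
        rw [← Real.exp_add]; congr 1; ring
      have h2 : Real.exp (-(τ / 2)) * (Real.exp (-(τ / 2)) / (d ^ 2 * 2 ^ (d + 2))) / 2 =
          Real.exp (-τ) / (d ^ 2 * 2 ^ (d + 2) * 2) := by
        rw [← h1]
        field_simp
      rw [h2, le_div_iff₀ (by positivity)]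
      refine le_trans ?_ e2
      rw [hA]
      have h3 : 0 < Real.exp (-τ₁) := Real.exp_pos _
      have h4 : (9 : ℝ) ^ d * (d ^ 2 * 2 ^ (d + 2) * 2) ≤
          9 ^ d * (d ^ 2 * 2 ^ (d + 2) * 2 + (3 + 2 * d)) := by
        gcongr
        linarith
      calc (9 : ℝ) ^ d * Real.exp (-τ₁) * (d ^ 2 * 2 ^ (d + 2) * 2) =
            9 ^ d * (d ^ 2 * 2 ^ (d + 2) * 2) * Real.exp (-τ₁) := by ring
        _ ≤ _ := by gcongr
    exact ⟨inner hd hn hm hU e4 hs0 hs1 hs2 hw, inner_pt hd hm hU e4 hs0 hs1 hs2 hw⟩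
  · intro b hb
    obtain ⟨w, h1, h2⟩ := outer' hd hn hl hm hP hU e4 hb
    refine ⟨w, h1, h2.trans ?_⟩
    rw [mul_comm]
    gcongr
    refine le_trans ?_ e2
    rw [hA]
    have h4 : (9 : ℝ) ^ d * (3 + 2 * d) ≤ 9 ^ d * (d ^ 2 * 2 ^ (d + 2) * 2 + (3 + 2 * d)) := by
      have h5 : 0 ≤ (d : ℝ) ^ 2 * 2 ^ (d + 2) * 2 := by positivity
      exact mul_le_mul_of_nonneg_left (by linarith) (by positivity)
    calc (3 + 2 * d) * (9 ^ d * Real.exp (-τ₁)) = 9 ^ d * (3 + 2 * d) * Real.exp (-τ₁) := by ring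
      _ ≤ _ := by gcongr
  · intro ρ hρ hρτ
    have hρ0 : 0 ≤ ρ := by linarith
    apply Subset.antisymm
    · rintro κ ⟨h1, h2⟩
      have h3 : ∀ z : ℂ, ‖z‖ ≤ ρ → ‖re d n c l m κ z - (z ^ d + κ)‖ ≤ 1 / 4 := by
        intro z hz
        have h4 : ρ ^ d ≤ Real.exp τ₁ := by
          have h5 : ρ ^ d ≤ ρ ^ (2 * d) := pow_le_pow_right₀ (by linarith) (by omega)
          exact (h5.trans hρτ).trans (Real.exp_le_exp.2 hle)
        obtain ⟨u1, -⟩ := hU (ρ ^ d) (one_le_pow₀ (by linarith)) h4 κ z h1 (by gcongr)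
        refine u1.trans ?_
        rw [← pow_mul, mul_comm d 2]
        calc ρ ^ (2 * d) * Real.exp (-τ₁) ≤ Real.exp τ * Real.exp (-τ₁) := by gcongr
          _ ≤ 1 / 4 := e3.trans l4
      obtain ⟨h5, h6⟩ := isolate (κ := κ) hd le_rfl h3 (fun j => by
        rw [re_iter' hm, mul_zero, norm_div, div_le_iff₀ (norm_pos_iff.2 hm)]
        exact h2 j)
      refine ⟨h5.trans (le_self_pow₀ (by norm_num) (by omega)), fun j => ?_⟩
      have h7 := h6 j
      rw [re_iter' hm, mul_zero, norm_div, div_le_iff₀ (norm_pos_iff.2 hm)] at h7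
      exact h7
    · rintro κ ⟨h1, h2⟩
      exact ⟨h1.trans (by gcongr), fun j => (h2 j).trans (by gcongr)⟩
  · rintro κ ⟨h1, h2⟩
    have hcl := hU.cl hm e4 h1
    obtain ⟨h5, h6⟩ := isolate (ρ := 3) (κ := κ) hd e4 (fun z hz => (hcl.2 z hz).1) (fun j => by
      rw [re_iter' hm, mul_zero, norm_div, div_le_iff₀ (norm_pos_iff.2 hm)]
      exact h2 j)
    rw [Metric.mem_thickening_iff]
    by_contra hcon
    push Not at hcon
    obtain ⟨j, hj⟩ := H₂ κ h5 hcon _ (hcl.mono (e1.trans l2))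
    exact absurd (h6 j) (not_le.2 hj)
  · intro κ hκ
    obtain ⟨κ', h1, h2, h3⟩ := H₃ κ hκ
    have h4 : ‖κ'‖ ≤ 3 ^ d := by
      have : (3 : ℝ) ≤ 3 ^ d := le_self_pow₀ (by norm_num) (by omega)
      linarith
    obtain ⟨h5, h6⟩ := (h3 _ ((hU.cl hm e4 h4).mono (e1.trans l3))).back hm hn
    rw [Metric.mem_thickening_iff]
    exact ⟨κ', ⟨⟨h4, h6⟩, h5⟩, h1⟩
  · intro κ hκ
    have h4 : ‖κ‖ ≤ 3 ^ d := by
      have h1 : κ ∈ Pool.Agent.H462R2.AD.hyp d := hκ (mem_ball_self hε)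
      have hM : κ ∈ multibrotSet d := interior_subset (Pool.Agent.R240.Alm.att_interior hd h1)
      have h2 := (Pool.Agent.H712R2.mem_multibrot_iff hd κ).1 hM 1
      rw [Pool.Agent.H712R2.P_succ, Pool.Agent.H712R2.P_zero, zero_pow (by omega), zero_add] at h2
      have : (3 : ℝ) ≤ 3 ^ d := le_self_pow₀ (by norm_num) (by omega)
      linarith
    obtain ⟨h5, h6⟩ := (H₁ κ hκ _ ((hU.cl hm e4 h4).mono (e1.trans l1))).back hm hn
    exact ⟨⟨h4, h6⟩, h5⟩
  · intro ρ hρ hρτ κ hκ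
    have hρd : ρ ≤ ρ ^ d := le_self_pow₀ (by linarith) (by omega)
    have h4 : ρ ^ d ≤ Real.exp τ₁ := by
      have h5 : ρ ^ d ≤ ρ ^ (2 * d) := pow_le_pow_right₀ (by linarith) (by omega)
      exact (h5.trans hρτ).trans (Real.exp_le_exp.2 hle)
    have h6 : (ρ ^ d) ^ 2 * Real.exp (-τ₁) ≤ 1 / 4 := by
      rw [← pow_mul, mul_comm d 2]
      calc ρ ^ (2 * d) * Real.exp (-τ₁) ≤ Real.exp τ * Real.exp (-τ₁) := by gcongr
        _ ≤ 1 / 4 := e3.trans l4
    have h7 : ∀ z : ℂ, ‖z‖ ≤ ρ → ‖re d n c l m κ z - (z ^ d + κ)‖ ≤ 1 / 4 ∧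
        ‖deriv (re d n c l m κ) z - d * z ^ (d - 1)‖ ≤ 1 / 4 := by
      intro z hz
      obtain ⟨u1, u2⟩ := hU (ρ ^ d) (one_le_pow₀ (by linarith)) h4 κ z (by linarith) (by gcongr)
      refine ⟨u1.trans h6, ?_⟩
      have h8 : deriv (re d n c l m κ) z = deriv ((f d (c + l * κ))^[n]) (m * z) :=
        deriv_ren hm
      rw [h8]
      exact u2.trans h6
    exact polylike' hd hn hρ le_rfl hκ (fun z hz => (h7 z hz).1) (fun z hz => (h7 z hz).2) hm
  · apply bas_orig hd hn hm hP hU e4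
    refine le_trans ?_ e2
    rw [hA]
    have h3 : (9 : ℝ) ^ d * 2 ≤ 9 ^ d * (d ^ 2 * 2 ^ (d + 2) * 2 + (3 + 2 * d)) := by
      have h5 : 0 ≤ (d : ℝ) ^ 2 * 2 ^ (d + 2) * 2 := by positivity
      exact mul_le_mul_of_nonneg_left (by linarith) (by positivity)
    calc 2 * (9 ^ d * Real.exp (-τ₁)) = 9 ^ d * 2 * Real.exp (-τ₁) := by ring
      _ ≤ _ := by gcongr

/-- near a parameter with a Lyapunov exponent -/
theorem near {d : ℕ} (hd : 2 ≤ d) {χ : ℝ} {c₀ : ℂ} (h : Pool.Agent.Y298.CA.Lyap d χ c₀) {ε : ℝ}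
    (hε : 0 < ε) : ∃ δ : ℝ, 0 < δ ∧ ∀ᶠ n : ℕ in atTop, ∀ c ∈ centres d n,
      ‖c - c₀‖ ≤ Real.exp (-((χ - δ) * n)) → Perfect d χ ε n c := by
  have hχ := h.1
  have hdR : (2 : ℝ) ≤ d := by exact_mod_cast hd
  have hd1 : (0 : ℝ) < (d : ℝ) - 1 := by linarith
  have hY : 0 < χ / (d - 1) := by positivity
  obtain ⟨ε₁, hε₁⟩ : ∃ ε₁ : ℝ, ε₁ = min (ε / 2) (χ / (d - 1) / 2) := ⟨_, rfl⟩
  have h1 : 0 < ε₁ := by rw [hε₁]; positivity
  have h2 : ε₁ ≤ ε / 2 := by rw [hε₁]; exact min_le_left _ _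
  have h3 : ε₁ ≤ χ / (d - 1) / 2 := by rw [hε₁]; exact min_le_right _ _
  obtain ⟨δ, hδ, H⟩ := uni_near hd h h1
  refine ⟨δ, hδ, ?_⟩
  filter_upwards [H, consequences hd hχ hε (by linarith : ε₁ < ε) (by linarith), eventually_ge_atTop 1]
    with n hn1 hn2 hn c hc hcc
  have hn0 : (0 : ℝ) < n := by exact_mod_cast hn
  have hP : Pool.Agent.H712R2.P d n c = 0 := Pool.Agent.N896.MB.per_zero hc
  obtain ⟨l, m, hl, hm, a1, a2, ⟨a3, a4⟩, ⟨a5, a6⟩, hU⟩ := hn1 c hP hcc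
  refine ⟨l, m, ⟨hl, hm, a1, a2, ?_, ?_⟩, hn2 c l m hl hm hP hU⟩
  · exact (log_near' hn0 a3 a4).trans (by linarith)
  · exact (log_near' hn0 a5 a6).trans (by linarith)

/-- far from the superattracting parameters, for one point -/
theorem lc_off {d : ℕ} (hd : 2 ≤ d) : LocallyConnectedSpace (multibrotSet d) ↔
    ∀ c₀ ∈ frontier (multibrotSet d),
      (∀ ε : ℝ, 0 < ε → ∀ᶠ n : ℕ in atTop, ∀ c ∈ centres d n,
        Real.exp (-((Real.log d + ε) * n)) < dist c c₀) →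
      LocallyConnectedAt (multibrotSet d) c₀ := by
  have hMc := (Pool.Agent.H712R2.isCompact_multibrot hd).isClosed
  constructor
  · intro h c₀ hc₀ _
    exact Pool.Agent.R240.Loc.lcs_iff.1 h c₀ (hMc.frontier_subset hc₀)
  · intro h
    refine Pool.Agent.R240.Loc.lcs_iff.2 fun p _ => ?_
    by_contra hcon
    obtain ⟨ε, hε, hs⟩ := Pool.Agent.R240.Loc.spread (Pool.Agent.H712R2.isCompact_multibrot hd)
      (Pool.Agent.H712R2.isConnected_multibrot hd).isPreconnected hcon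
    obtain ⟨s, hs1, hs2⟩ : ∃ s : ℝ, s ∈ Ioo 0 ε ∧ ∀ c ∈ frontier (multibrotSet d), dist c p = s →
        Pool.Agent.R240.Res.Nonres d c := by
      by_contra h4
      push Not at h4
      have h5 : volume (Ioo 0 ε) = 0 := by
        apply measure_mono_null _ (Pool.Agent.R240.Res.ae_nonres hd p)
        intro s hs' hcon'
        obtain ⟨c, h6, h7, h8⟩ := h4 s hs'
        exact h8 (hcon' c h6 h7)
      rw [Real.volume_Ioo, ENNReal.ofReal_eq_zero] at h5
      linarith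
    obtain ⟨z, hz, hzs, hzc⟩ := hs s hs1.1 hs1.2
    have hzf : z ∈ frontier (multibrotSet d) :=
      ⟨subset_closure hz, fun hi => hzc (Pool.Agent.R240.Slim.cik_interior hi)⟩
    refine hzc (h z hzf fun ε' hε' => ?_)
    have h6 := hs2 z hzf hzs 1 le_rfl (Or.inl rfl) (Real.log d + ε') (by
      rw [Nat.cast_one, div_one]; linarith)
    filter_upwards [h6] with n hn c hc
    rw [dist_eq_norm]
    exact hn.1 c (Pool.Agent.N896.MB.per_zero hc)

theorem result (d : ℕ) (hd : 2 ≤ d) :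
    -- most small copies are perfect
    (∀ ε : ℝ, 0 < ε → Tendsto (fun n : ℕ =>
      ({c | c ∈ centres d n ∧ Perfect d (Real.log d) ε n c}.ncard : ℝ) / (centres d n).ncard)
        atTop (𝓝 1)) ∧
    -- all small copies near the parameters `c₀` with a Lyapunov exponent `χ > 0` are perfect
    (∀ (χ : ℝ) (c₀ : ℂ), 0 < χ → c₀ ∈ multibrotSet d →
      Tendsto (fun n : ℕ => Real.log ‖deriv ((f d c₀)^[n]) c₀‖ / n) atTop (𝓝 χ) →
      ∀ ε : ℝ, 0 < ε → ∃ δ : ℝ, 0 < δ ∧ ∀ᶠ n : ℕ in atTop, ∀ c ∈ centres d n,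
        ‖c - c₀‖ ≤ Real.exp (-((χ - δ) * n)) → Perfect d χ ε n c) ∧
    -- the boundary is in the closure of the hyperbolic parameters
    frontier (multibrotSet d) ⊆ closure (hyperbolic d) ∧
    -- local connectivity is decided outside of the discs where the family is universal
    (LocallyConnectedSpace (multibrotSet d) ↔
      ∀ c₀ ∈ frontier (multibrotSet d),
        (∀ ε : ℝ, 0 < ε → ∀ᶠ n : ℕ in atTop, ∀ c ∈ centres d n,
          Real.exp (-((Real.log d + ε) * n)) < dist c c₀) →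
        LocallyConnectedAt (multibrotSet d) c₀) := by
  obtain ⟨β, hβ⟩ := Pool.Agent.H713R2.exists_beta (d := d) hd
  have hψ := Pool.Agent.H713R2.exteriorMap_of_beta hβ
  refine ⟨?_, ?_, frontier_sub hd, lc_off hd⟩
  · intro ε hε
    apply most_tendsto hd hψ (fun n c => Perfect d (Real.log d) ε n c)
    filter_upwards [ae_lyap hd hψ] with θ hθ
    exact near hd hθ hε
  · intro χ c₀ hχ hc₀ hlim ε hε
    exact near hd ⟨hχ, hc₀, hlim⟩ hε

end Pool.Agent.Results.MP_fcb70f_an.PerfectCopies
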