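import Mathlib
import Pool.Prelude.Def_F_c31e40fa
import Pool.Agent.N228.LC.Mod

set_option autoImplicit false

open N62a1eb23

namespace Pool.Agent.Results.MP_fcb70f_an.SharpCoarseModulus

/-- The coarse modulus of local connectivity of the Multibrot sets `M_n`.

(1) Any two points `x, y` of `M_n` at distance at most `1/4` lie in a continuum in `M_n` of diameter
at most `|x - y| + (log n + 28) / (n - 1)`.
(2) If `x ^ (n - 1) = -1`, then `x` and `y = x exp (2 π i / (n - 1))` (adjacent superattracting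
parameters of period two) are points of `M_n` at distance at most `2 π / (n - 1)`, and every
connected subset of `M_n` containing both has diameter at least `log n / (n - 1)`.
(3) If `log n ≥ 16`, there are two points `x, y` of `M_n` with critical point periodic of period
dividing `3` at distance at most `26 / ((n - 1) log n)` such that every connected subset of `M_n`
containing both has diameter at least `(log log n - 1) / (n - 1)`.
(4) The same for the modulus `modulus M_n δ`, the supremum over all points `x, y` of `M_n` with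
`|x - y| ≤ δ` of the infimum of the diameters of the continua in `M_n` through `x` and `y`. -/
theorem result :
    (∀ n : ℕ, 2 ≤ n → ∀ x ∈ multibrotSet n, ∀ y ∈ multibrotSet n, dist x y ≤ 1 / 4 →
      ∃ S : Set ℂ, S ⊆ multibrotSet n ∧ IsCompact S ∧ IsConnected S ∧ x ∈ S ∧ y ∈ S ∧
        Metric.diam S ≤ dist x y + (Real.log n + 28) / ((n : ℝ) - 1)) ∧
    (∀ n : ℕ, 3 ≤ n → ∀ x y : ℂ, x ^ (n - 1) = -1 →
      y = x * Complex.exp ((2 * Real.pi / ((n : ℝ) - 1) : ℝ) * Complex.I) →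
      x ∈ multibrotSet n ∧ y ∈ multibrotSet n ∧ dist x y ≤ 2 * Real.pi / ((n : ℝ) - 1) ∧
      ∀ S : Set ℂ, S ⊆ multibrotSet n → IsPreconnected S → x ∈ S → y ∈ S →
        Real.log n / ((n : ℝ) - 1) ≤ Metric.diam S) ∧
    (∀ n : ℕ, 3 ≤ n → 16 ≤ Real.log n → ∃ x ∈ multibrotSet n, ∃ y ∈ multibrotSet n,
      x ≠ 0 ∧ (fun z : ℂ => z ^ n + x)^[3] 0 = 0 ∧ (fun z : ℂ => z ^ n + y)^[3] 0 = 0 ∧
      dist x y ≤ 26 / (((n : ℝ) - 1) * Real.log n) ∧
      ∀ S : Set ℂ, S ⊆ multibrotSet n → IsPreconnected S → x ∈ S → y ∈ S →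
        (Real.log (Real.log n) - 1) / ((n : ℝ) - 1) ≤ Metric.diam S) ∧
    (∀ n : ℕ, 2 ≤ n → ∀ δ : ℝ, 0 ≤ δ → δ ≤ 1 / 4 →
      N228.LC.modulus (multibrotSet n) δ ≤ δ + (Real.log n + 28) / ((n : ℝ) - 1)) ∧
    (∀ n : ℕ, 3 ≤ n → ∀ δ : ℝ, 2 * Real.pi / ((n : ℝ) - 1) ≤ δ →
      Real.log n / ((n : ℝ) - 1) ≤ N228.LC.modulus (multibrotSet n) δ) ∧
    (∀ n : ℕ, 3 ≤ n → 16 ≤ Real.log n → ∀ δ : ℝ, 26 / (((n : ℝ) - 1) * Real.log n) ≤ δ →
      (Real.log (Real.log n) - 1) / ((n : ℝ) - 1) ≤ N228.LC.modulus (multibrotSet n) δ) := by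
  have h3 : ∀ n : ℕ, 3 ≤ n → 16 ≤ Real.log n → ∃ x ∈ multibrotSet n, ∃ y ∈ multibrotSet n,
      x ≠ 0 ∧ (fun z : ℂ => z ^ n + x)^[3] 0 = 0 ∧ (fun z : ℂ => z ^ n + y)^[3] 0 = 0 ∧
      dist x y ≤ 26 / (((n : ℝ) - 1) * Real.log n) ∧
      ∀ S : Set ℂ, S ⊆ multibrotSet n → IsPreconnected S → x ∈ S → y ∈ S →
        (Real.log (Real.log n) - 1) / ((n : ℝ) - 1) ≤ Metric.diam S := by
    intro n hn h16
    obtain ⟨x, hx1, hx2, hx0, hd, hs1, hs2, hdep⟩ := N228.LC.third hn h16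
    refine ⟨x, N228.LC.mem_of_period (by norm_num) hx1, _,
      N228.LC.mem_of_period (by norm_num) hx2, hx0, hx1, hx2, hd, ?_⟩
    intro S hS hSc hxS hyS
    have h7 := N228.LC.diam_ge (by omega) 0 hS hSc hxS hyS hs1 hs2
    have h9 := le_max_left ‖x‖ ‖(starRingEnd ℂ) x‖
    linarith
  refine ⟨fun n hn x hx y hy h => N228.LC.join hn hx hy h, ?_, h3,
    fun n hn δ h0 hδ => N228.LC.modulus_le hn h0 hδ, ?_, ?_⟩
  · rintro n hn x y hx rfl
    exact N228.LC.second hn hx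
  · intro n hn δ hδ
    have hm : n - 1 ≠ 0 := by omega
    obtain ⟨x, hx⟩ := IsAlgClosed.exists_pow_nat_eq (-1 : ℂ) (Nat.pos_of_ne_zero hm)
    obtain ⟨h1, h2, h3, h4⟩ := N228.LC.second hn hx
    exact (N228.LC.le_joining (by omega) h1 h2 h4).trans
      (N228.LC.le_modulus (by omega) h1 h2 (h3.trans hδ))
  · intro n hn h16 δ hδ
    obtain ⟨x, hx, y, hy, -, -, -, hd, h4⟩ := h3 n hn h16
    exact (N228.LC.le_joining (by omega) hx hy h4).trans
      (N228.LC.le_modulus (by omega) hx hy (hd.trans hδ))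

end Pool.Agent.Results.MP_fcb70f_an.SharpCoarseModulus
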